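import Mathlib

set_option autoImplicit false

namespace Pool.Agent.Results.MP_f85992_lc.NoResidual

/-- `G` is a linear (t_1, ..., t_k)-PIR code: the encoder a ↦ a^T G is one-to-one and for each
data symbol j there are t_j pairwise disjoint sets of positions whose columns span e_j. -/
def IsPIR {F : Type} [Field F] {k n : ℕ} (G : Matrix (Fin k) (Fin n) F) (t : Fin k → ℕ) : Prop :=
  Function.Injective (fun a : Fin k → F => Matrix.vecMul a G) ∧
  ∀ j : Fin k, ∃ R : Fin (t j) → Finset (Fin n),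
    (∀ a b, a ≠ b → Disjoint (R a) (R b)) ∧
    ∀ a, (Pi.single j 1 : Fin k → F) ∈
      Submodule.span F ((fun i : Fin n => fun r : Fin k => G r i) '' (R a : Set (Fin n)))

def G0 : Matrix (Fin 5) (Fin 14) (ZMod 2) :=
  !![0, 0, 0, 0, 0, 0, 0, 1, 1, 1, 1, 1, 1, 1;
     1, 0, 0, 0, 1, 1, 0, 1, 0, 0, 0, 1, 1, 0;
     0, 1, 0, 0, 1, 0, 1, 0, 1, 0, 0, 1, 0, 1;
     0, 0, 1, 0, 0, 1, 1, 0, 0, 1, 0, 0, 1, 1;
     0, 0, 0, 1, 1, 1, 1, 0, 0, 0, 1, 1, 1, 1]

def t0 : Fin 5 → ℕ := ![7, 5, 5, 5, 5]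

lemma mem_of_sum {k n : ℕ} (G : Matrix (Fin k) (Fin n) (ZMod 2)) (R : Finset (Fin n))
    (v : Fin k → ZMod 2) (h : ∀ r, ∑ i ∈ R, G r i = v r) :
    v ∈ Submodule.span (ZMod 2) ((fun i : Fin n => fun r : Fin k => G r i) '' (R : Set (Fin n))) := by
  have : v = ∑ i ∈ R, (fun r : Fin k => G r i) := by
    funext r; rw [Finset.sum_apply, h]
  rw [this]
  exact Submodule.sum_mem _ fun i hi => Submodule.subset_span ⟨i, hi, rfl⟩

lemma aux (j : Fin 5) (s : ℕ) (hs : t0 j = s) (R : Fin s → Finset (Fin 14))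
    (h1 : ∀ a b, a ≠ b → Disjoint (R a) (R b))
    (h2 : ∀ a r, ∑ i ∈ R a, G0 r i = (Pi.single j 1 : Fin 5 → ZMod 2) r) :
    ∃ R : Fin (t0 j) → Finset (Fin 14), (∀ a b, a ≠ b → Disjoint (R a) (R b)) ∧
      ∀ a, (Pi.single j 1 : Fin 5 → ZMod 2) ∈ Submodule.span (ZMod 2)
        ((fun i : Fin 14 => fun r : Fin 5 => G0 r i) '' (R a : Set (Fin 14))) := by
  subst hs
  exact ⟨R, h1, fun a => mem_of_sum _ _ _ (h2 a)⟩

lemma pir0 : IsPIR G0 t0 := by
  refine ⟨?_, fun j => ?_⟩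
  · intro a b h
    have h0 := congrFun h 0
    have h1 := congrFun h 1
    have h2 := congrFun h 2
    have h3 := congrFun h 3
    have h7 := congrFun h 7
    simp [G0, Matrix.vecMul, dotProduct, Fin.sum_univ_succ] at h0 h1 h2 h3 h7
    funext i
    fin_cases i
    · simpa [h0] using h7
    · exact h0
    · exact h1
    · exact h2
    · exact h3
  · fin_cases j
    · exact aux 0 7 rfl ![{0, 7}, {1, 8}, {2, 9}, {3, 10}, {4, 11}, {5, 12}, {6, 13}]
        (by decide) (by decide)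
    · exact aux 1 5 rfl ![{0}, {1, 3, 4}, {2, 10, 12}, {5, 8, 13}, {6, 9, 11}]
        (by decide) (by decide)
    · exact aux 2 5 rfl ![{1}, {0, 3, 4}, {2, 10, 13}, {5, 9, 11}, {6, 7, 12}]
        (by decide) (by decide)
    · exact aux 3 5 rfl ![{2}, {0, 3, 5}, {1, 10, 13}, {4, 8, 12}, {6, 7, 11}]
        (by decide) (by decide)
    · exact aux 4 5 rfl ![{3}, {0, 1, 4}, {2, 7, 12}, {5, 11, 13}, {6, 8, 9}]
        (by decide) (by decide)

lemma coeffs {k n : ℕ} (G : Matrix (Fin k) (Fin n) (ZMod 2)) (R : Finset (Fin n))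
    (v : Fin k → ZMod 2)
    (h : v ∈ Submodule.span (ZMod 2)
      ((fun i : Fin n => fun r : Fin k => G r i) '' (R : Set (Fin n)))) :
    ∃ u : Fin n → ZMod 2, (∀ i, i ∉ R → u i = 0) ∧ G.mulVec u = v := by
  induction h using Submodule.span_induction with
  | mem x hx =>
    obtain ⟨i, hi, rfl⟩ := hx
    refine ⟨Pi.single i 1, fun j hj => ?_, ?_⟩
    · rw [Pi.single_eq_of_ne]; rintro rfl; exact hj hi
    · funext r; simp
  | zero => exact ⟨0, fun _ _ => rfl, by simp⟩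
  | add x y _ _ hx hy =>
    obtain ⟨u, hu, rfl⟩ := hx
    obtain ⟨w, hw, rfl⟩ := hy
    exact ⟨u + w, fun i hi => by simp [hu i hi, hw i hi], by rw [Matrix.mulVec_add]⟩
  | smul c x _ hx =>
    obtain ⟨u, hu, rfl⟩ := hx
    exact ⟨c • u, fun i hi => by simp [hu i hi], by rw [Matrix.mulVec_smul]⟩

lemma no7 (G : Matrix (Fin 4) (Fin 7) (ZMod 2)) (t : Fin 4 → ℕ) (ht : ∀ j, t j = 3) :
    ¬ IsPIR G t := by
  rintro ⟨-, h⟩
  have sq : ∀ c : ZMod 2, c * c = c := by decide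
  have two : ∀ c : ZMod 2, c + c = 0 := by decide
  have hu : ∀ j : Fin 4, ∃ u x y : Fin 7 → ZMod 2, G.mulVec u = Pi.single j 1 ∧
      G.mulVec x = 0 ∧ G.mulVec y = 0 ∧ u = x * y := by
    intro j
    obtain ⟨R, hd, hR⟩ := h j
    have h3 := ht j
    let a0 : Fin (t j) := ⟨0, by omega⟩
    let a1 : Fin (t j) := ⟨1, by omega⟩
    let a2 : Fin (t j) := ⟨2, by omega⟩
    obtain ⟨u0, s0, e0⟩ := coeffs G _ _ (hR a0)
    obtain ⟨u1, s1, e1⟩ := coeffs G _ _ (hR a1)
    obtain ⟨u2, s2, e2⟩ := coeffs G _ _ (hR a2)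
    have d01 := Finset.disjoint_left.mp (hd a0 a1 (by simp [a0, a1]))
    have d02 := Finset.disjoint_left.mp (hd a0 a2 (by simp [a0, a2]))
    have d12 := Finset.disjoint_left.mp (hd a1 a2 (by simp [a1, a2]))
    refine ⟨u0, u0 + u1, u0 + u2, e0, ?_, ?_, ?_⟩
    · rw [Matrix.mulVec_add, e0, e1]; funext r; exact two _
    · rw [Matrix.mulVec_add, e0, e2]; funext r; exact two _
    · funext i
      simp only [Pi.mul_apply, Pi.add_apply]
      by_cases h0 : i ∈ R a0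
      · rw [s1 i (d01 h0), s2 i (d02 h0)]; simp [sq]
      · rw [s0 i h0]
        by_cases h1 : i ∈ R a1
        · rw [s2 i (d12 h1)]; simp
        · rw [s1 i h1]; simp
  choose u x y hu hx hy huxy using hu
  set K := LinearMap.ker G.mulVecLin with hK
  have hsurj : LinearMap.range G.mulVecLin = ⊤ := by
    rw [eq_top_iff]
    intro v _
    refine ⟨∑ j, v j • u j, ?_⟩
    rw [map_sum]
    funext r
    simp [hu, Finset.sum_apply, Pi.single_apply]
  have hrank : Module.finrank (ZMod 2) K = 3 := by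
    have := LinearMap.finrank_range_add_finrank_ker G.mulVecLin
    rw [hsurj, finrank_top, Module.finrank_fin_fun, Module.finrank_fin_fun, ← hK] at this
    omega
  let b := Module.finBasisOfFinrankEq (ZMod 2) K hrank
  let w : {p : Fin 3 × Fin 3 // p.1 ≤ p.2} → (Fin 7 → ZMod 2) :=
    fun p => (b p.1.1 : Fin 7 → ZMod 2) * (b p.1.2 : Fin 7 → ZMod 2)
  set W := Submodule.span (ZMod 2) (Set.range w) with hW
  have hbb : ∀ i j : Fin 3, (b i : Fin 7 → ZMod 2) * (b j : Fin 7 → ZMod 2) ∈ W := by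
    intro i j
    rcases le_total i j with hij | hij
    · exact Submodule.subset_span ⟨⟨(i, j), hij⟩, rfl⟩
    · rw [mul_comm]; exact Submodule.subset_span ⟨⟨(j, i), hij⟩, rfl⟩
  have hmul : ∀ p q : K, (p : Fin 7 → ZMod 2) * (q : Fin 7 → ZMod 2) ∈ W := by
    intro p q
    rw [← b.sum_repr p, ← b.sum_repr q]
    simp only [Submodule.coe_sum, Submodule.coe_smul, Finset.sum_mul_sum]
    refine W.sum_mem fun i _ => W.sum_mem fun j _ => ?_
    rw [smul_mul_smul_comm]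
    exact W.smul_mem _ (hbb i j)
  have htop : W = ⊤ := by
    rw [eq_top_iff]
    intro z _
    have h1 : z - ∑ j, (G.mulVec z) j • u j ∈ K := by
      rw [hK, LinearMap.mem_ker, map_sub, map_sum]
      funext r
      simp [hu, Finset.sum_apply, Pi.single_apply]
    have h2 : z - ∑ j, (G.mulVec z) j • u j ∈ W := by
      have := hmul ⟨_, h1⟩ ⟨_, h1⟩
      convert this using 1
      funext i
      exact (sq _).symm
    have h3 : ∑ j, (G.mulVec z) j • u j ∈ W := by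
      refine W.sum_mem fun j _ => W.smul_mem _ ?_
      rw [huxy j]
      exact hmul ⟨x j, hx j⟩ ⟨y j, hy j⟩
    simpa using W.add_mem h2 h3
  have hle := finrank_range_le_card (R := ZMod 2) w
  unfold Set.finrank at hle
  rw [← hW, htop] at hle
  have hc : Fintype.card {p : Fin 3 × Fin 3 // p.1 ≤ p.2} = 6 := by decide
  rw [hc] at hle
  simp at hle

/-- The residual step fails: it is not true that for every finite field F_q, every k = m + 1 ≥ 2,
all t_1 ≥ ... ≥ t_k ≥ 1 and all n, a (t_1, ..., t_k)-PIR code of length n yields a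
(⌈t_2/q⌉, ..., ⌈t_k/q⌉)-PIR code of length n - t_1. -/
theorem result :
    ¬ ∀ (F : Type) [Field F] [Fintype F] (m : ℕ), 1 ≤ m → ∀ t : Fin (m + 1) → ℕ,
      Antitone t → (∀ j, 1 ≤ t j) → ∀ n : ℕ,
      (∃ G : Matrix (Fin (m + 1)) (Fin n) F, IsPIR G t) →
      ∃ G' : Matrix (Fin m) (Fin (n - t 0)) F,
        IsPIR G' (fun j => ⌈(t j.succ : ℚ) / (Fintype.card F : ℚ)⌉₊) := by
  intro h
  have : Fact (Nat.Prime 2) := ⟨Nat.prime_two⟩
  obtain ⟨G', hG'⟩ := h (ZMod 2) 4 (by norm_num) t0 (by decide) (by decide) 14 ⟨G0, pir0⟩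
  refine no7 G' _ (fun j => ?_) hG'
  have h5 : t0 j.succ = 5 := by revert j; decide
  rw [h5, ZMod.card]
  rw [Nat.ceil_eq_iff (by norm_num)]
  norm_num

end Pool.Agent.Results.MP_f85992_lc.NoResidual
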